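import Mathlib

namespace Pool.Agent.Results.MP_a9cc6a_nt.Full

open Polynomial

/-- The central Delannoy number `a(n)`, the sum of `C(n,k) C(n+k,k)` over `0 ≤ k ≤ n`. -/
def a (n : ℕ) : ℕ := ∑ k ∈ Finset.range (n + 1), n.choose k * (n + k).choose k

/-- `b(n)`, the exponent of `3` in `a(n)`. -/
def b (n : ℕ) : ℕ := padicValNat 3 (a n)

/-- `a n` as a coefficient. -/
theorem a_coeff (n : ℕ) : a n = (((1 + X) * (1 + (1 + X))) ^ n : ℕ[X]).coeff n := by
  rw [mul_pow, add_comm (1 : ℕ[X]) (1 + X), add_pow (1 + X) 1 n, Finset.mul_sum,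
    finsetSum_coeff, a]
  apply Finset.sum_congr rfl
  intro k hk
  have h : (1 + X : ℕ[X]) ^ n * ((1 + X) ^ k * 1 ^ (n - k) * (n.choose k : ℕ[X])) =
      (n.choose k : ℕ[X]) * (1 + X) ^ (n + k) := by
    rw [one_pow, pow_add]; ring
  rw [h, ← C_eq_natCast, coeff_C_mul, coeff_one_add_X_pow]
  have h2 : (n + k).choose n = (n + k).choose k := by
    rw [Nat.choose_symm_add]
  rw [Nat.cast_id, Nat.cast_id, h2]

/-- the coefficient of `X^i` in `(2+X^2)^i` -/
theorem coeff_sq (i : ℕ) : ((C 2 + X ^ 2) ^ i : ℕ[X]).coeff i =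
    if i % 2 = 0 then i.choose (i / 2) * 2 ^ (i / 2) else 0 := by
  rw [add_comm, add_pow, finsetSum_coeff]
  have h : ∀ j, ((X ^ 2) ^ j * C 2 ^ (i - j) * (i.choose j : ℕ[X])).coeff i =
      if i = 2 * j then 2 ^ (i - j) * i.choose j else 0 := by
    intro j
    rw [← C_eq_natCast, mul_assoc, ← C_pow, ← C_mul, coeff_mul_C, ← pow_mul, coeff_X_pow]
    split_ifs <;> simp
  simp only [h]
  by_cases hi : i % 2 = 0
  · rw [if_pos hi, Finset.sum_eq_single (i / 2)]
    · rw [if_pos (by omega)]
      have : i - i / 2 = i / 2 := by omega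
      rw [this, mul_comm]
    · intro j _ hj
      rw [if_neg (by omega)]
    · intro hj
      exact absurd (Finset.mem_range.mpr (by omega)) hj
  · rw [if_neg hi]
    apply Finset.sum_eq_zero
    intro j _
    rw [if_neg (by omega)]

theorem a_sum (n : ℕ) : a n = ∑ i ∈ Finset.range (n + 1),
    (if i % 2 = 0 then i.choose (i / 2) * 2 ^ (i / 2) else 0) * (3 ^ (n - i) * n.choose i) := by
  rw [a_coeff]
  have h : ((1 + X) * (1 + (1 + X)) : ℕ[X]) = (C 2 + X ^ 2) + C 3 * X := by
    have h2 : (C 2 : ℕ[X]) = 2 := rfl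
    have h3 : (C 3 : ℕ[X]) = 3 := rfl
    rw [h2, h3]; ring
  rw [h, add_pow, finsetSum_coeff]
  apply Finset.sum_congr rfl
  intro i hi
  have hi' : i ≤ n := Nat.lt_succ_iff.mp (Finset.mem_range.mp hi)
  have h2 : ((C 2 + X ^ 2) ^ i * (C 3 * X) ^ (n - i) * (n.choose i : ℕ[X]) : ℕ[X]) =
      (C 2 + X ^ 2) ^ i * C (3 ^ (n - i) * n.choose i) * X ^ (n - i) := by
    rw [← C_eq_natCast, C_mul, C_pow, mul_pow, Nat.cast_id]; ring
  rw [h2]
  have h3 : n - (n - i) = i := by omega
  rw [coeff_mul_X_pow', if_pos (by omega), h3, coeff_mul_C, coeff_sq]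

/-- even index: `a (2m)` as a sum over `j` -/
theorem a_even (m : ℕ) : a (2 * m) = ∑ j ∈ Finset.range (m + 1),
    (2 * (m - j)).choose (m - j) * 2 ^ (m - j) * (9 ^ j * (2 * m).choose (2 * j)) := by
  rw [a_sum]
  have h1 : ∑ j ∈ Finset.range (m + 1),
      (2 * (m - j)).choose (m - j) * 2 ^ (m - j) * (9 ^ j * (2 * m).choose (2 * j)) =
      ∑ k ∈ Finset.range (m + 1),
      (2 * k).choose k * 2 ^ k * (9 ^ (m - k) * (2 * m).choose (2 * (m - k))) := by
    rw [← Finset.sum_range_reflect]
    apply Finset.sum_congr rfl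
    intro j hj
    have hj' := Finset.mem_range.mp hj
    have e1 : m - (m + 1 - 1 - j) = j := by omega
    have e2 : m + 1 - 1 - j = m - j := by omega
    rw [e1, e2]
  rw [h1]
  symm
  apply Finset.sum_of_injOn (fun k => 2 * k)
  · intro x _ y _ h
    simp only at h
    omega
  · intro k hk
    simp only [Finset.coe_range, Set.mem_Iio] at hk ⊢
    omega
  · intro i hi hi2
    by_cases h : i % 2 = 0
    · exfalso
      apply hi2
      refine ⟨i / 2, ?_, ?_⟩
      · have := Finset.mem_range.mp hi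
        simp only [Finset.coe_range, Set.mem_Iio]
        omega
      · simp only
        omega
    · rw [if_neg h, zero_mul]
  · intro k hk
    have hk' := Finset.mem_range.mp hk
    have e1 : 2 * k / 2 = k := by omega
    have e2 : (9 : ℕ) ^ (m - k) = 3 ^ (2 * m - 2 * k) := by
      rw [show 2 * m - 2 * k = 2 * (m - k) by omega, pow_mul]; norm_num
    have e3 : (2 * m).choose (2 * (m - k)) = (2 * m).choose (2 * k) := by
      rw [← Nat.choose_symm (by omega : 2 * k ≤ 2 * m)]
      congr 1
      omega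
    rw [if_pos (by omega), e1, e2, e3]

/-- odd index -/
theorem a_odd (m : ℕ) : a (2 * m + 1) = ∑ j ∈ Finset.range (m + 1),
    (2 * (m - j)).choose (m - j) * 2 ^ (m - j) * (3 * 9 ^ j * (2 * m + 1).choose (2 * j + 1)) := by
  rw [a_sum]
  have h1 : ∑ j ∈ Finset.range (m + 1),
      (2 * (m - j)).choose (m - j) * 2 ^ (m - j) *
        (3 * 9 ^ j * (2 * m + 1).choose (2 * j + 1)) =
      ∑ k ∈ Finset.range (m + 1),
      (2 * k).choose k * 2 ^ k * (3 * 9 ^ (m - k) * (2 * m + 1).choose (2 * (m - k) + 1)) := by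
    rw [← Finset.sum_range_reflect]
    apply Finset.sum_congr rfl
    intro j hj
    have hj' := Finset.mem_range.mp hj
    have e1 : m - (m + 1 - 1 - j) = j := by omega
    have e2 : m + 1 - 1 - j = m - j := by omega
    rw [e1, e2]
  rw [h1]
  symm
  apply Finset.sum_of_injOn (fun k => 2 * k)
  · intro x _ y _ h
    simp only at h
    omega
  · intro k hk
    simp only [Finset.coe_range, Set.mem_Iio] at hk ⊢
    omega
  · intro i hi hi2
    by_cases h : i % 2 = 0
    · exfalso
      apply hi2
      refine ⟨i / 2, ?_, ?_⟩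
      · have := Finset.mem_range.mp hi
        simp only [Finset.coe_range, Set.mem_Iio]
        omega
      · simp only
        omega
    · rw [if_neg h, zero_mul]
  · intro k hk
    have hk' := Finset.mem_range.mp hk
    have e1 : 2 * k / 2 = k := by omega
    have e2 : 3 * (9 : ℕ) ^ (m - k) = 3 ^ (2 * m + 1 - 2 * k) := by
      rw [show 2 * m + 1 - 2 * k = 2 * (m - k) + 1 by omega, pow_succ, pow_mul]; norm_num
      ring
    have e3 : (2 * m + 1).choose (2 * (m - k) + 1) = (2 * m + 1).choose (2 * k) := by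
      rw [← Nat.choose_symm (by omega : 2 * k ≤ 2 * m + 1)]
      congr 1
      omega
    rw [if_pos (by omega), e1, e2, e3]

/-- three-adic valuation of a factorial is small -/
theorem val_fact_lt (n : ℕ) (hn : 1 ≤ n) : padicValNat 3 n.factorial < n := by
  have : Fact (Nat.Prime 3) := ⟨Nat.prime_three⟩
  have h := sub_one_mul_padicValNat_factorial (p := 3) n
  omega

theorem val_fact_odd (j : ℕ) (hj : 1 ≤ j) : padicValNat 3 (2 * j + 1).factorial < 2 * j := by
  have : Fact (Nat.Prime 3) := ⟨Nat.prime_three⟩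
  have h := sub_one_mul_padicValNat_factorial (p := 3) (2 * j + 1)
  have h2 : (3 - 1) * padicValNat 3 (2 * j + 1).factorial ≤ 2 * j + 1 := by rw [h]; omega
  omega

/-- general principle: a sum whose first term has exact valuation `v` and the rest have
valuation at least `v+1` -/
theorem val_sum (f : ℕ → ℕ) (m v : ℕ) (h0 : f 0 ≠ 0) (hv : padicValNat 3 (f 0) = v)
    (h : ∀ j, 1 ≤ j → j ≤ m → 3 ^ (v + 1) ∣ f j) :
    padicValNat 3 (∑ j ∈ Finset.range (m + 1), f j) = v := by
  have : Fact (Nat.Prime 3) := ⟨Nat.prime_three⟩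
  rw [Finset.sum_range_succ']
  have hd : 3 ^ (v + 1) ∣ ∑ j ∈ Finset.range m, f (j + 1) :=
    Finset.dvd_sum fun j hj => h (j + 1) (by omega) (by have := Finset.mem_range.mp hj; omega)
  set s := ∑ j ∈ Finset.range m, f (j + 1) with hs
  have hne : s + f 0 ≠ 0 := by omega
  have h1 : 3 ^ v ∣ f 0 := by rw [← hv]; exact pow_padicValNat_dvd
  have h2 : ¬ 3 ^ (v + 1) ∣ f 0 := by
    rw [← hv]; exact pow_succ_padicValNat_not_dvd h0
  apply le_antisymm
  · by_contra hc
    apply h2
    have h3 : 3 ^ (v + 1) ∣ s + f 0 := by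
      rw [padicValNat_dvd_iff_le hne]; omega
    exact (Nat.dvd_add_right hd).mp h3
  · rw [← padicValNat_dvd_iff_le hne]
    exact dvd_add (dvd_trans (pow_dvd_pow 3 (Nat.le_succ v)) hd) h1

theorem term_even (m j : ℕ) (hj : j ≤ m) :
    ((2 * (m - j)).choose (m - j) * 2 ^ (m - j) * (9 ^ j * (2 * m).choose (2 * j))) *
      (2 * j).factorial = (2 * m).choose m * 2 ^ (m - j) * 9 ^ j * (m.choose j * j.factorial) ^ 2 := by
  have e1 : (2 * (m - j)).choose (m - j) * (m - j).factorial * (m - j).factorial =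
      (2 * (m - j)).factorial := by
    have := Nat.choose_mul_factorial_mul_factorial (show m - j ≤ 2 * (m - j) by omega)
    rwa [show 2 * (m - j) - (m - j) = m - j by omega] at this
  have e2 : (2 * m).choose (2 * j) * (2 * j).factorial * (2 * (m - j)).factorial =
      (2 * m).factorial := by
    have := Nat.choose_mul_factorial_mul_factorial (show 2 * j ≤ 2 * m by omega)
    rwa [show 2 * m - 2 * j = 2 * (m - j) by omega] at this
  have e3 : (2 * m).choose m * m.factorial * m.factorial = (2 * m).factorial := by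
    have := Nat.choose_mul_factorial_mul_factorial (show m ≤ 2 * m by omega)
    rwa [show 2 * m - m = m by omega] at this
  have e4 : m.choose j * j.factorial * (m - j).factorial = m.factorial :=
    Nat.choose_mul_factorial_mul_factorial hj
  have hp : 0 < (m - j).factorial ^ 2 := by positivity
  apply Nat.eq_of_mul_eq_mul_right hp
  calc _ = 2 ^ (m - j) * 9 ^ j * (((2 * (m - j)).choose (m - j) * (m - j).factorial *
        (m - j).factorial) * ((2 * m).choose (2 * j) * (2 * j).factorial)) := by ring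
    _ = 2 ^ (m - j) * 9 ^ j * ((2 * m).choose (2 * j) * (2 * j).factorial *
        (2 * (m - j)).factorial) := by rw [e1]; ring
    _ = 2 ^ (m - j) * 9 ^ j * ((2 * m).choose m * m.factorial * m.factorial) := by rw [e2, e3]
    _ = 2 ^ (m - j) * 9 ^ j * ((2 * m).choose m *
        (m.choose j * j.factorial * (m - j).factorial) *
        (m.choose j * j.factorial * (m - j).factorial)) := by rw [e4]
    _ = _ := by ring

theorem term_odd (m j : ℕ) (hj : j ≤ m) :
    ((2 * (m - j)).choose (m - j) * 2 ^ (m - j) * (3 * 9 ^ j * (2 * m + 1).choose (2 * j + 1))) *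
      (2 * j + 1).factorial = 3 * ((2 * m + 1) * (2 * m).choose m) * 2 ^ (m - j) * 9 ^ j *
        (m.choose j * j.factorial) ^ 2 := by
  have e1 : (2 * (m - j)).choose (m - j) * (m - j).factorial * (m - j).factorial =
      (2 * (m - j)).factorial := by
    have := Nat.choose_mul_factorial_mul_factorial (show m - j ≤ 2 * (m - j) by omega)
    rwa [show 2 * (m - j) - (m - j) = m - j by omega] at this
  have e2 : (2 * m + 1).choose (2 * j + 1) * (2 * j + 1).factorial * (2 * (m - j)).factorial =
      (2 * m + 1).factorial := by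
    have := Nat.choose_mul_factorial_mul_factorial (show 2 * j + 1 ≤ 2 * m + 1 by omega)
    rwa [show 2 * m + 1 - (2 * j + 1) = 2 * (m - j) by omega] at this
  have e3 : (2 * m).choose m * m.factorial * m.factorial = (2 * m).factorial := by
    have := Nat.choose_mul_factorial_mul_factorial (show m ≤ 2 * m by omega)
    rwa [show 2 * m - m = m by omega] at this
  have e4 : m.choose j * j.factorial * (m - j).factorial = m.factorial :=
    Nat.choose_mul_factorial_mul_factorial hj
  have e5 : (2 * m + 1).factorial = (2 * m + 1) * (2 * m).factorial := Nat.factorial_succ _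
  have hp : 0 < (m - j).factorial ^ 2 := by positivity
  apply Nat.eq_of_mul_eq_mul_right hp
  calc _ = 3 * 2 ^ (m - j) * 9 ^ j * (((2 * (m - j)).choose (m - j) * (m - j).factorial *
        (m - j).factorial) * ((2 * m + 1).choose (2 * j + 1) * (2 * j + 1).factorial)) := by ring
    _ = 3 * 2 ^ (m - j) * 9 ^ j * ((2 * m + 1).choose (2 * j + 1) * (2 * j + 1).factorial *
        (2 * (m - j)).factorial) := by rw [e1]; ring
    _ = 3 * 2 ^ (m - j) * 9 ^ j * ((2 * m + 1) * ((2 * m).choose m * m.factorial *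
        m.factorial)) := by rw [e2, e5, e3]
    _ = 3 * 2 ^ (m - j) * 9 ^ j * ((2 * m + 1) * ((2 * m).choose m *
        (m.choose j * j.factorial * (m - j).factorial) *
        (m.choose j * j.factorial * (m - j).factorial))) := by rw [e4]
    _ = _ := by ring

/-- divisibility step -/
theorem dvd_step (t F w D e : ℕ) (hF : F ≠ 0) (he : 1 ≤ e) (h : t * F = w * D) (hD : 3 ^ (e * 2) ∣ D)
    (hw : w ≠ 0) (hFv : padicValNat 3 F < 2 * e) : 3 ^ (padicValNat 3 w + 1) ∣ t := by
  have : Fact (Nat.Prime 3) := ⟨Nat.prime_three⟩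
  by_cases ht : t = 0
  · rw [ht]; exact dvd_zero _
  have hD0 : D ≠ 0 := by
    rintro rfl
    rw [mul_zero] at h
    exact (mul_ne_zero ht hF) h
  have h1 : padicValNat 3 t + padicValNat 3 F = padicValNat 3 w + padicValNat 3 D := by
    rw [← padicValNat.mul ht hF, ← padicValNat.mul hw hD0, h]
  have h2 : e * 2 ≤ padicValNat 3 D := by
    rwa [← padicValNat_dvd_iff_le hD0]
  rw [padicValNat_dvd_iff_le ht]
  omega

theorem val_two_pow (m : ℕ) : padicValNat 3 (2 ^ m) = 0 := by
  apply padicValNat.eq_zero_of_not_dvd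
  intro h
  have := Nat.Prime.dvd_of_dvd_pow Nat.prime_three h
  omega

theorem b_even (m : ℕ) : b (2 * m) = padicValNat 3 ((2 * m).choose m) := by
  have : Fact (Nat.Prime 3) := ⟨Nat.prime_three⟩
  have hc : (2 * m).choose m ≠ 0 := (Nat.choose_pos (by omega)).ne'
  rw [b, a_even]
  have h0 : (2 * (m - 0)).choose (m - 0) * 2 ^ (m - 0) * (9 ^ 0 * (2 * m).choose (2 * 0)) =
      (2 * m).choose m * 2 ^ m := by simp
  apply val_sum
  · rw [h0]; positivity
  · rw [h0, padicValNat.mul hc (by positivity), val_two_pow, add_zero]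
  · intro j hj1 hj2
    apply dvd_step _ (2 * j).factorial ((2 * m).choose m)
      (2 ^ (m - j) * 9 ^ j * (m.choose j * j.factorial) ^ 2) j (Nat.factorial_ne_zero _) hj1
    · rw [term_even m j hj2]; ring
    · have : (3 : ℕ) ^ (j * 2) = 9 ^ j := by rw [mul_comm, pow_mul]; norm_num
      rw [this]
      exact Dvd.intro_left (2 ^ (m - j) * (m.choose j * j.factorial) ^ 2) (by ring)
    · exact hc
    · exact val_fact_lt (2 * j) (by omega)

theorem b_odd (m : ℕ) : b (2 * m + 1) = 1 + padicValNat 3 (2 * m + 1) +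
    padicValNat 3 ((2 * m).choose m) := by
  have : Fact (Nat.Prime 3) := ⟨Nat.prime_three⟩
  have hc : (2 * m).choose m ≠ 0 := (Nat.choose_pos (by omega)).ne'
  have hw : padicValNat 3 (3 * ((2 * m + 1) * (2 * m).choose m)) = 1 + padicValNat 3 (2 * m + 1) +
      padicValNat 3 ((2 * m).choose m) := by
    rw [padicValNat.mul (by norm_num) (by positivity), padicValNat.mul (by positivity) hc,
      padicValNat.self (by norm_num)]
    ring
  rw [b, a_odd]
  have h0 : (2 * (m - 0)).choose (m - 0) * 2 ^ (m - 0) * (3 * 9 ^ 0 *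
      (2 * m + 1).choose (2 * 0 + 1)) = 3 * ((2 * m + 1) * (2 * m).choose m) * 2 ^ m := by
    simp; ring
  apply val_sum
  · rw [h0]; positivity
  · rw [h0, padicValNat.mul (by positivity) (by positivity), val_two_pow, hw, add_zero]
  · intro j hj1 hj2
    rw [← hw]
    apply dvd_step _ (2 * j + 1).factorial (3 * ((2 * m + 1) * (2 * m).choose m))
      (2 ^ (m - j) * 9 ^ j * (m.choose j * j.factorial) ^ 2) j (Nat.factorial_ne_zero _) hj1
    · rw [term_odd m j hj2]; ring
    · have : (3 : ℕ) ^ (j * 2) = 9 ^ j := by rw [mul_comm, pow_mul]; norm_num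
      rw [this]
      exact Dvd.intro_left (2 ^ (m - j) * (m.choose j * j.factorial) ^ 2) (by ring)
    · positivity
    · exact val_fact_odd j hj1

/-- valuation of the central binomial coefficient -/
theorem cb_val (m : ℕ) : padicValNat 3 ((2 * m).choose m) + 2 * padicValNat 3 m.factorial =
    padicValNat 3 (2 * m).factorial := by
  have : Fact (Nat.Prime 3) := ⟨Nat.prime_three⟩
  have e3 : (2 * m).choose m * m.factorial * m.factorial = (2 * m).factorial := by
    have := Nat.choose_mul_factorial_mul_factorial (show m ≤ 2 * m by omega)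
    rwa [show 2 * m - m = m by omega] at this
  have hc : (2 * m).choose m ≠ 0 := (Nat.choose_pos (by omega)).ne'
  rw [← e3, padicValNat.mul (by positivity) (by positivity), padicValNat.mul hc (by positivity)]
  ring

theorem fact3 (k r : ℕ) (hr : r < 3) :
    padicValNat 3 (3 * k + r).factorial = padicValNat 3 k.factorial + k := by
  have : Fact (Nat.Prime 3) := ⟨Nat.prime_three⟩
  rw [padicValNat_factorial_mul_add k hr, padicValNat_factorial_mul]

theorem val_small (k r : ℕ) (hr : r % 3 ≠ 0) : padicValNat 3 (3 * k + r) = 0 := by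
  apply padicValNat.eq_zero_of_not_dvd
  omega

theorem val_three (k : ℕ) : padicValNat 3 (3 * (2 * k + 1)) = 1 + padicValNat 3 (2 * k + 1) := by
  have : Fact (Nat.Prime 3) := ⟨Nat.prime_three⟩
  rw [padicValNat.mul (by norm_num) (by positivity), padicValNat.self (by norm_num)]

/-- the key one step recursion -/
theorem step (n : ℕ) : b n = b (n / 3) + n % 2 := by
  have : Fact (Nat.Prime 3) := ⟨Nat.prime_three⟩
  obtain ⟨k, r, hr, hn⟩ : ∃ k r, r < 6 ∧ n = 6 * k + r := ⟨n / 6, n % 6, by omega, by omega⟩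
  have c0 := cb_val k
  have c1 := cb_val (3 * k)
  have c2 := cb_val (3 * k + 1)
  have c3 := cb_val (3 * k + 2)
  have f0 := fact3 k 0 (by norm_num)
  have f1 := fact3 k 1 (by norm_num)
  have f2 := fact3 k 2 (by norm_num)
  have g0 := fact3 (2 * k) 0 (by norm_num)
  have g2 := fact3 (2 * k) 2 (by norm_num)
  have g4 := fact3 (2 * k + 1) 1 (by norm_num)
  have g5 : padicValNat 3 (2 * k + 1).factorial =
      padicValNat 3 (2 * k + 1) + padicValNat 3 (2 * k).factorial := by
    rw [Nat.factorial_succ, padicValNat.mul (by positivity) (by positivity)]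
  have w1 := val_small (2 * k) 1 (by norm_num)
  have w5 := val_small (2 * k + 1) 2 (by norm_num)
  have w3 := val_three k
  have be1 := b_even k
  have be3 := b_even (3 * k)
  have be4 := b_even (3 * k + 1)
  have be5 := b_even (3 * k + 2)
  have bo1 := b_odd k
  have bo3 := b_odd (3 * k)
  have bo4 := b_odd (3 * k + 1)
  have bo5 := b_odd (3 * k + 2)
  simp only [add_zero] at f0 g0
  rw [show 2 * (3 * k) = 3 * (2 * k) by ring] at c1 be3 bo3
  rw [show 2 * (3 * k + 1) = 3 * (2 * k) + 2 by ring] at c2 be4 bo4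
  rw [show 2 * (3 * k + 2) = 3 * (2 * k + 1) + 1 by ring] at c3 be5 bo5
  rw [show 3 * (2 * k) + 2 + 1 = 3 * (2 * k + 1) by ring] at bo4
  rw [show 3 * (2 * k + 1) + 1 + 1 = 3 * (2 * k + 1) + 2 by ring] at bo5
  interval_cases r
  · have e1 : n = 3 * (2 * k) := by omega
    have e2 : n / 3 = 2 * k := by omega
    have e3 : n % 2 = 0 := by omega
    rw [e2, e3, e1]; omega
  · have e1 : n = 3 * (2 * k) + 1 := by omega
    have e2 : n / 3 = 2 * k := by omega
    have e3 : n % 2 = 1 := by omega
    rw [e2, e3, e1]; omega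
  · have e1 : n = 3 * (2 * k) + 2 := by omega
    have e2 : n / 3 = 2 * k := by omega
    have e3 : n % 2 = 0 := by omega
    rw [e2, e3, e1]; omega
  · have e1 : n = 3 * (2 * k + 1) := by omega
    have e2 : n / 3 = 2 * k + 1 := by omega
    have e3 : n % 2 = 1 := by omega
    rw [e2, e3, e1]; omega
  · have e1 : n = 3 * (2 * k + 1) + 1 := by omega
    have e2 : n / 3 = 2 * k + 1 := by omega
    have e3 : n % 2 = 0 := by omega
    rw [e2, e3, e1]; omega
  · have e1 : n = 3 * (2 * k + 1) + 2 := by omega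
    have e2 : n / 3 = 2 * k + 1 := by omega
    have e3 : n % 2 = 1 := by omega
    rw [e2, e3, e1]; omega

theorem result : ∀ n : ℕ,
    ((n % 3 = 0 ∨ n % 3 = 2) → b n = b (n / 3) + (n / 3) % 2) ∧
    (n % 3 = 1 → b n = b (n / 9) + 1) := by
  intro n
  refine ⟨fun h => ?_, fun h => ?_⟩
  · rw [step n]; omega
  · rw [step n, step (n / 3), show n / 3 / 3 = n / 9 by omega]; omega

end Pool.Agent.Results.MP_a9cc6a_nt.Full
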